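import Pool.Agent.H869R3.LF.Op

set_option autoImplicit false

/-!
# Solutions to Post's problem invariant under actions of locally finite groups

`TLe` (Turing reducibility of sets, given by their characteristic sequences) and `join` are defined
in `Pool/Agent/Helper227/Defs.lean`; `pre X n` (the initial segment of length `n` of `X`) in
`Pool/Agent/Helper227/Use.lean`; `WE X e` (the `e`-th set computably enumerable relative to `X`) and
`jump X` in `Pool/Agent/Helper227/RD/Jump.lean`; `chr S` (the characteristic sequence of `S`) in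
`Pool/Agent/H548R2/Post/Main.lean`.

`PostIndex e` says that `X <_T W_e^X <_T X'` and `(W_e^X)' ≤_T X'` for all `X`.

`IsAct m c T` says that the maps `T 0, T 1, ...` of the Cantor space into itself form a group which
is the union of the finite subgroups `{T k : k < c n}`, with multiplication `m` of the indices
(`Pool/Agent/H869R3/LF/Comb.lean`). The map `T k` is given by `T k X n = δ k n (pre X (u k n))`, so
for computable `δ` and `u` the maps are truth-table reductions, uniformly in `k`. Part 1 of the
theorem says that for computable `m`, `c`, `δ`, `u` there is an index `e` with `PostIndex e` and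
`W_e^X ≡_T W_e^{T_k(X)}` for all `X` and `k`. For example, the group may be the group of all
permutations with finite support, acting on the columns of `X`.

Part 2 and Part 3 are about translations. `Fam δ u X i` is the set whose value at `n` is
`δ i n (pre X (u i n))`. The theorem `PrimrecInvariant` of this folder gives an index `e` with
`PostIndex e` and with `W_e^X ≡_T W_e^Y` for all `X`, `Y` such that `X △ Y` is in a given uniformly
computable sequence of sets, or is primitive recursive. Here the sets by which the oracle is changed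
are not computable but depend on the oracle.
-/

namespace Pool.Agent.Results.MP_57825d_lc.LocallyFiniteActions

open Pool.Agent.Helper227 Pool.Agent.H548R2.Post Pool.Agent.H869R3.RT Pool.Agent.H869R3.LF

theorem result :
    -- 1. actions of locally finite groups by truth-table reductions
    (∀ (m : ℕ → ℕ → ℕ) (c : ℕ → ℕ) (T : ℕ → (ℕ → Bool) → ℕ → Bool)
      (δ : ℕ → ℕ → List Bool → Bool) (u : ℕ → ℕ → ℕ), IsAct m c T →
      (∀ k X n, T k X n = δ k n (pre X (u k n))) → Computable₂ m → Computable c →
      Computable (fun x : (ℕ × ℕ) × List Bool => δ x.1.1 x.1.2 x.2) → Computable₂ u →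
      ∃ e : ℕ, PostIndex e ∧ ∀ (k : ℕ) (X : ℕ → Bool),
        TLe (chr (WE X e)) (chr (WE (T k X) e)) ∧ TLe (chr (WE (T k X) e)) (chr (WE X e))) ∧
    -- 2. translations by sets which depend on the oracle in a truth-table way
    (∀ (δ : ℕ → ℕ → List Bool → Bool) (u : ℕ → ℕ → ℕ),
      Computable (fun x : (ℕ × ℕ) × List Bool => δ x.1.1 x.1.2 x.2) → Computable₂ u →
      (∀ (X : ℕ → Bool) (i j n : ℕ),
        Fam δ u (fun m => xor (X m) (Fam δ u X i m)) j n = Fam δ u X j n) →
      ∃ e : ℕ, PostIndex e ∧ ∀ X Y : ℕ → Bool, (∃ i, ∀ n, xor (X n) (Y n) = Fam δ u X i n) →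
        TLe (chr (WE X e)) (chr (WE Y e)) ∧ TLe (chr (WE Y e)) (chr (WE X e))) ∧
    -- 3. changing the first half `Y` of `Y ⊕ Z` by a set which is truth-table reducible to `Z`
    (∀ (δ : ℕ → ℕ → List Bool → Bool) (u : ℕ → ℕ → ℕ),
      Computable (fun x : (ℕ × ℕ) × List Bool => δ x.1.1 x.1.2 x.2) → Computable₂ u →
      ∃ e : ℕ, PostIndex e ∧ ∀ Y Y' Z : ℕ → Bool,
        ((∃ i, ∀ n, xor (Y n) (Y' n) = Fam δ u Z i n) ∨
          ∃ (f : ℕ × List Bool → Bool) (v : ℕ → ℕ), Primrec f ∧ Primrec v ∧
            ∀ n, xor (Y n) (Y' n) = f (n, pre Z (v n))) →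
        TLe (chr (WE (join Y Z) e)) (chr (WE (join Y' Z) e)) ∧
          TLe (chr (WE (join Y' Z) e)) (chr (WE (join Y Z) e))) :=
  ⟨fun _ _ _ _ _ hT hc hm hcc hδ hu => main_act hT hc hm hcc hδ hu,
    fun _ _ hδ hu h => main_inv hδ hu h, fun _ _ hδ hu => main_both' hδ hu⟩

end Pool.Agent.Results.MP_57825d_lc.LocallyFiniteActions
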