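import Pool.Agent.H869R3.FN.Two

set_option autoImplicit false

/-!
# Solutions to Post's problem: one pair of programs without a finite list of candidates

`W r X` is the set c.e. in `X` with index `r`, `J X` is the jump of `X`, `le Y X` is Turing
reducibility `Y ≤_T X` (Mathlib's), `ch P` is the characteristic function of `P`, and `Red c X Y`
says that the program `c` reduces `Y` to `X` (`Pool/Agent/H639/LU/Defs.lean`). `pf n X` is the
sequence `0ⁿ 1 X`, and `IsCoding S` says that two fixed programs translate `0ⁿ 1 X` into `S n X`
and back, for all `n` and `X` (`Pool/Agent/H869R3/FN`). So `S n X ≡_T X`, and `pf` is a coding.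

The theorem `BoundedNonuniformity` of this folder says: if `W_r` solves Post's problem on a cone,
then for each `k` there is a pair `(i, j)` of programs, depending on `k`, for which no `k` programs
suffice: in no cone is it true that, whenever `X ≡_T Y` via `(i, j)`, one of them reduces `W_r^Y`
to `W_r^X`. Here it is shown that there is a single pair `(i, j)` for which no finite number of
programs suffices, unless the operator is already non-uniform for the simplest changes of the
oracle: for every coding `S`, for example `S(n,X) = 0ⁿ 1 X`, the number of programs which are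
necessary for the equivalence of `W_r^X` and `W_r^{S(n,X)}` on a cone tends to infinity with `n`.

For the proof, let `N` be an infinite set of numbers `n` for which `k` programs suffice. There is a
universal pair of programs which simulates the `m`-th pair on the oracles `S(n,X)`, `n` the `m`-th
element of `N`, for all `X` in the closed set of all joins of `N` with another set. A finite
list for this pair gives a bounded number of candidates for all pairs, on this closed set, and the
local form of the theorem on bounded lists, relativised to closed sets, applies.
-/

namespace Pool.Agent.Results.MP_57825d_lc.SinglePair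

open Nat.Partrec (Code)
open Pool.Agent.H639.LU Pool.Agent.H869R3.FN

theorem result :
    (∀ (r : Code) (z₀ : ℕ → Bool),
      (∀ X, le z₀ X → ¬ le (ch (W r X)) X ∧ le X (ch (W r X)) ∧ ¬ le (ch (J X)) (ch (W r X))) →
      (∃ i j : Code, ∀ (L : Finset Code) (z : ℕ → Bool), ∃ X Y : ℕ → Bool,
        le z X ∧ Red i X Y ∧ Red j Y X ∧ ∀ l ∈ L, ¬ Red l (ch (W r X)) (ch (W r Y))) ∨
      ∀ S : ℕ → (ℕ → Bool) → ℕ → Bool, IsCoding S → ∀ k : ℕ,
        {n : ℕ | ∃ M : Finset Code, M.card ≤ k ∧ ∃ z : ℕ → Bool, ∀ X : ℕ → Bool, le z X →
          (∃ l ∈ M, Red l (ch (W r X)) (ch (W r (S n X)))) ∧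
          ∃ l ∈ M, Red l (ch (W r (S n X))) (ch (W r X))}.Finite) ∧
    IsCoding pf := by
  refine ⟨fun r z₀ hr => ?_, isCoding_pf⟩
  by_cases h1 : FinTwo r
  · right
    intro S hS k
    exact two_sided_inf r z₀ hr S hS h1 k
  · left
    unfold FinTwo at h1
    push Not at h1
    exact h1

end Pool.Agent.Results.MP_57825d_lc.SinglePair
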