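import Pool.Agent.H869R3.FN.Inf2

set_option autoImplicit false

/-!
# Solutions to Post's problem: one program without a finite list of candidates

`W r X` is the set c.e. in `X` with index `r`, `J X` is the jump of `X`, `le Y X` is Turing
reducibility `Y ≤_T X` (Mathlib's), `ch P` is the characteristic function of `P`, and `Red c X Y`
says that the program `c` reduces `Y` to `X` (`Pool/Agent/H639/LU/Defs.lean`). `pf n X` is the
sequence `0ⁿ 1 X`, and `IsCoding S` says that two fixed programs translate `0ⁿ 1 X` into `S n X`
and back, for all `n` and `X` (`Pool/Agent/H869R3/FN`). So `S n X ≡_T X`, and `pf` is a coding.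

Let `W_r` solve Post's problem on a cone. Then there is a single program `i` without a finite list
of candidates: for no finite set `L` of programs and in no cone some member of `L` reduces `W_r^Y`
to `W_r^X` whenever `X ≡_T Y` and `i` reduces `Y` to `X`; or else, for every coding `S`, the sets
`W_r^{S(n,X)}` (which are all of the degree of `W_r^X` if the solution is degree invariant) are as
non-uniform as possible:

* for all `X` in a cone, each infinite set `N ≤_T X` and each `V ≥_T X`: if `V` enumerates, for
  each `n ∈ N`, at most `k` programs one of which reduces `W_r^{S(n,X)}` to `V`, then `X' ≤_T V`;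
* in particular the join of the sets `W_r^{S(n,X)}`, `n ∈ N`, computes `X'`;
* and the number of programs which are necessary for the reduction of `W_r^{S(n,X)}` to `W_r^X` on
  a cone tends to infinity with `n`.

The proof uses the local form of the theorem on bounded lists (`BoundedNonuniformity` in this
folder), and a universal program which simulates the `m`-th program on the oracles `S(n,X)`, `n`
the `m`-th element of `N`.
-/

namespace Pool.Agent.Results.MP_57825d_lc.SingleProgram

open Nat.Partrec (Code)
open Encodable
open Pool.Agent.H639.LU Pool.Agent.H869R3.FN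

theorem result :
    (∀ (r : Code) (z₀ : ℕ → Bool),
      (∀ X, le z₀ X → ¬ le (ch (W r X)) X ∧ le X (ch (W r X)) ∧ ¬ le (ch (J X)) (ch (W r X))) →
      (∃ i : Code, ∀ (L : Finset Code) (z : ℕ → Bool), ∃ X Y : ℕ → Bool,
        le z X ∧ le X Y ∧ Red i X Y ∧ ∀ l ∈ L, ¬ Red l (ch (W r X)) (ch (W r Y))) ∨
      ∀ S : ℕ → (ℕ → Bool) → ℕ → Bool, IsCoding S →
        (∀ k : ℕ, ∃ z₁ : ℕ → Bool, ∀ X : ℕ → Bool, le z₁ X → ∀ N : ℕ → Bool,
          {n | N n = true}.Infinite → le N X → ∀ V : ℕ → Bool, le X V → ∀ e : Code,
          (∀ n : ℕ, N n = true → {l : Code | W e V (encode (n, l))}.encard ≤ k) →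
          (∀ n : ℕ, N n = true →
            ∃ l : Code, W e V (encode (n, l)) ∧ Red l V (ch (W r (S n X)))) →
          le (ch (J X)) V) ∧
        (∃ z₁ : ℕ → Bool, ∀ X : ℕ → Bool, le z₁ X → ∀ N : ℕ → Bool,
          {n | N n = true}.Infinite → le N X →
          le (ch (J X)) (ch fun p => N p.unpair.1 = true ∧ W r (S p.unpair.1 X) p.unpair.2)) ∧
        ∀ k : ℕ, {n : ℕ | ∃ M : Finset Code, M.card ≤ k ∧ ∃ z : ℕ → Bool,
          ∀ X : ℕ → Bool, le z X →
            ∃ l ∈ M, Red l (ch (W r X)) (ch (W r (S n X)))}.Finite) ∧
    IsCoding pf := by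
  refine ⟨fun r z₀ hr => ?_, isCoding_pf⟩
  by_cases h1 : FinOne r
  · right
    intro S hS
    have hl : ∀ k, LocN r S k := locN r z₀ (fun X hX => (hr X hX).1) S hS h1
    exact ⟨hl, joinN_complete r z₀ (fun X hX => (hr X hX).2.1) S hS (hl 1),
      fun k => finite_exceptions r z₀ hr S k (hl k)⟩
  · left
    unfold FinOne at h1
    push Not at h1
    exact h1

end Pool.Agent.Results.MP_57825d_lc.SingleProgram
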